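import Mathlib
import Pool.Agent.H15.G.R_seed8.H822.Shift

set_option autoImplicit false

/-!
# The multiplicity lemma over a finite field

A nonzero polynomial over `F_q` which vanishes to order at least `μ` at all points of `F_q^c` has
total degree at least `μ q`.
-/

open MvPolynomial

namespace Pool.Agent.H822

variable {F : Type*} [Field F]

/-- coefficient slice -/
noncomputable def slice {c : ℕ} (v : Fin c → F) (γ : Fin c →₀ ℕ)
    (H : Polynomial (MvPolynomial (Fin c) F)) : Polynomial F :=
  ∑ k ∈ H.support, Polynomial.monomial k (coeff γ (sh v (H.coeff k)))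

lemma coeff_slice {c : ℕ} (v : Fin c → F) (γ : Fin c →₀ ℕ)
    (H : Polynomial (MvPolynomial (Fin c) F)) (k : ℕ) :
    (slice v γ H).coeff k = coeff γ (sh v (H.coeff k)) := by
  classical
  unfold slice
  rw [Polynomial.finsetSum_coeff]
  simp only [Polynomial.coeff_monomial]
  rw [Finset.sum_ite_eq' H.support k]
  split_ifs with h
  · rfl
  · rw [Polynomial.notMem_support_iff] at h
    rw [h]; simp

lemma natDegree_slice_le {c : ℕ} (v : Fin c → F) (γ : Fin c →₀ ℕ)
    (H : Polynomial (MvPolynomial (Fin c) F)) :
    (slice v γ H).natDegree ≤ H.natDegree := by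
  rw [Polynomial.natDegree_le_iff_coeff_eq_zero]
  intro N hN
  rw [coeff_slice, Polynomial.coeff_eq_zero_of_natDegree_lt hN]
  simp

lemma slice_add {c : ℕ} (v : Fin c → F) (γ : Fin c →₀ ℕ)
    (H K : Polynomial (MvPolynomial (Fin c) F)) :
    slice v γ (H + K) = slice v γ H + slice v γ K := by
  ext k
  simp [coeff_slice]

lemma finSuccEquiv_monomial {c : ℕ} (β : Fin (c+1) →₀ ℕ) (r : F) :
    finSuccEquiv F c (monomial β r) = Polynomial.monomial (β 0) (monomial (Finsupp.tail β) r) := by
  classical
  ext k m
  rw [finSuccEquiv_coeff_coeff, coeff_monomial, Polynomial.coeff_monomial]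
  by_cases h : β 0 = k
  · subst h
    rw [if_pos rfl, coeff_monomial]
    by_cases h2 : Finsupp.tail β = m
    · subst h2
      rw [if_pos rfl, if_pos (Finsupp.cons_tail β).symm]
    · rw [if_neg h2, if_neg]
      intro h3
      apply h2
      rw [h3, Finsupp.tail_cons]
  · rw [if_neg h, if_neg]
    · simp
    · intro h3
      apply h
      rw [h3, Finsupp.cons_zero]

lemma taylor_slice {c : ℕ} (a : F) (v : Fin c → F) (i : ℕ) (γ : Fin c →₀ ℕ)
    (G : MvPolynomial (Fin (c+1)) F) :
    (Polynomial.taylor a (slice v γ (finSuccEquiv F c G))).coeff i =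
      coeff (Finsupp.cons i γ) (sh (Fin.cons a v : Fin (c+1) → F) G) := by
  classical
  induction G using MvPolynomial.induction_on' with
  | monomial β r =>
    rw [finSuccEquiv_monomial]
    have h1 : slice v γ (Polynomial.monomial (β 0) (monomial (Finsupp.tail β) r)) =
        Polynomial.monomial (β 0) (r * bc v (Finsupp.tail β) γ) := by
      ext k
      rw [coeff_slice, Polynomial.coeff_monomial, Polynomial.coeff_monomial]
      split_ifs with h
      · rw [coeff_sh_monomial]
      · simp
    rw [h1, Polynomial.taylor_coeff, Polynomial.hasseDeriv_monomial, Polynomial.eval_monomial,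
      coeff_sh_monomial]
    unfold bc
    rw [Fin.prod_univ_succ]
    simp only [Finsupp.cons_zero, Fin.cons_zero, Finsupp.cons_succ, Fin.cons_succ, Finsupp.tail_apply]
    ring
  | add p q hp hq =>
    rw [map_add, slice_add, map_add, Polynomial.coeff_add, hp, hq, map_add, coeff_add]

lemma degree_cons' {c : ℕ} (i : ℕ) (γ : Fin c →₀ ℕ) :
    (Finsupp.cons i γ).degree = i + γ.degree := by
  rw [Finsupp.degree_eq_sum, Finsupp.degree_eq_sum, Fin.sum_univ_succ]
  simp

variable [Fintype F]

/-- multiplicity lemma -/
theorem mult_lemma (c : ℕ) : ∀ (μ : ℕ) (G : MvPolynomial (Fin c) F),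
    (∀ v : Fin c → F, ∀ γ : Fin c →₀ ℕ, γ.degree < μ → coeff γ (sh v G) = 0) → G ≠ 0 →
    μ * Fintype.card F ≤ G.totalDegree := by
  classical
  induction c with
  | zero =>
    intro μ G h hG
    rcases Nat.eq_zero_or_pos μ with hμ | hμ
    · subst hμ; simp
    · exfalso
      apply hG
      have h0 := h 0 0 (by simpa using hμ)
      rw [sh_zero] at h0
      ext m
      have : m = 0 := Subsingleton.elim _ _
      rw [this, h0]; simp
  | succ c ih =>
    intro μ G h hG
    set q := Fintype.card F with hq
    have hqpos : 0 < q := Fintype.card_pos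
    set H := finSuccEquiv F c G with hH
    have hH0 : H ≠ 0 := by
      rw [hH]
      intro h0
      exact hG ((map_eq_zero_iff _ (finSuccEquiv F c).injective).1 h0)
    set i₀ := H.natDegree with hi₀
    set g := H.coeff i₀ with hg
    have hg0 : g ≠ 0 := by
      rw [hg, hi₀]
      exact Polynomial.leadingCoeff_ne_zero.2 hH0
    have hdeg : g.totalDegree + i₀ ≤ G.totalDegree :=
      totalDegree_coeff_finSuccEquiv_add_le G i₀ hg0
    have key : (μ - i₀ / q) * q ≤ g.totalDegree := by
      apply ih (μ - i₀ / q) g _ hg0
      intro v' γ' hγ'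
      set p := slice v' γ' H with hp
      have hpc : p.coeff i₀ = coeff γ' (sh v' g) := by
        rw [hp, coeff_slice]
      rw [← hpc]
      by_contra hne
      have hp0 : p ≠ 0 := by
        intro h0; rw [h0] at hne; simp at hne
      have hpdeg : p.natDegree ≤ i₀ := natDegree_slice_le _ _ _
      have hdvd : ∀ a ∈ (Finset.univ : Finset F),
          (Polynomial.X - Polynomial.C a) ^ (μ - γ'.degree) ∣ p := by
        intro a _
        rw [Polynomial.X_sub_C_pow_dvd_iff, ← Polynomial.taylor_apply, Polynomial.X_pow_dvd_iff]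
        intro i hi
        rw [hp, hH, taylor_slice]
        apply h
        rw [degree_cons']
        omega
      have hprod : ∏ a : F, (Polynomial.X - Polynomial.C a) ^ (μ - γ'.degree) ∣ p := by
        apply Finset.prod_dvd_of_coprime _ hdvd
        intro a _ b _ hab
        apply IsCoprime.pow
        exact Polynomial.isCoprime_X_sub_C_of_isUnit_sub (sub_ne_zero.2 hab).isUnit
      have hd := Polynomial.natDegree_le_of_dvd hprod hp0
      rw [Polynomial.natDegree_prod _ _ (fun a _ => pow_ne_zero _ (Polynomial.X_sub_C_ne_zero a))] at hd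
      simp only [Polynomial.natDegree_pow, Polynomial.natDegree_X_sub_C, mul_one, Finset.sum_const,
        Finset.card_univ, smul_eq_mul] at hd
      rw [← hq] at hd
      have h1 : i₀ / q < μ - γ'.degree := by omega
      have h2 : i₀ < q * (μ - γ'.degree) := by
        rw [Nat.div_lt_iff_lt_mul hqpos] at h1
        rw [mul_comm]; exact h1
      omega
    calc μ * q ≤ (μ - i₀ / q) * q + (i₀ / q) * q := by
          rw [← add_mul]
          apply Nat.mul_le_mul_right
          omega
      _ ≤ g.totalDegree + i₀ := by
          gcongr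
          exact Nat.div_mul_le_self i₀ q
      _ ≤ _ := hdeg

end Pool.Agent.H822
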